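import Pool.Agent.Q298.DWT.Basic

/-! # JOB K1 of project DWT (helper298): the drift inequality. -/

set_option autoImplicit false

namespace Pool.Agent.Q176.DWT

open Filter Topology Pool.Agent.Q298.DWT

variable {f : ℕ → ℝ} {s : Multiset ℕ}

/-! ### sums with indicators -/

lemma ind_sum (s : Multiset ℕ) (g : ℕ → ℝ) (j : ℕ) (B : ℝ) :
    (s.map (fun d => g d * (if d + j = D s then B else 0))).sum =
      (cnt s j : ℝ) * (g (D s - j) * B) := by
  unfold cnt
  generalize D s = n
  induction s using Multiset.induction_on with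
  | empty => simp
  | cons a s ih =>
    rw [Multiset.map_cons, Multiset.sum_cons, ih, Multiset.countP_cons]
    by_cases h : a + j = n
    · have h2 : n - j = a := by omega
      simp only [h, if_true, h2]
      push_cast
      ring
    · simp only [h, if_false]
      simp

lemma sum_split (s : Multiset ℕ) (j : ℕ) (A B E : ℝ) :
    (s.map (fun d => f d * ((if d + 0 = D s then A else 0) + (if d + j = D s then B else 0) + E))).sum =
      (cnt s 0 : ℝ) * (f (D s) * A) + (cnt s j : ℝ) * (f (D s - j) * B) + Z f s * E := by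
  have h1 := ind_sum s f 0 A
  have h2 := ind_sum s f j B
  have h3 := msum_mul_right s E f
  rw [Nat.sub_zero] at h1
  rw [← h1, ← h2]
  unfold Z
  rw [← h3, ← msum_add, ← msum_add]
  exact msum_congr fun d _ => by ring

lemma one_le_cnt (hs : s ≠ 0) : 1 ≤ cnt s 0 := by
  unfold cnt
  rw [Nat.one_le_iff_ne_zero, ← Nat.pos_iff_ne_zero, Multiset.countP_pos]
  exact ⟨D s, D_mem hs, by simp⟩

/-! ### the constants of the weight function -/

lemma exists_kap {c : ℝ} (hf : EG f c) :
    ∃ kap : ℝ, 0 < kap ∧ kap ≤ 1 ∧ ∀ k, kap * f (k + 1) ≤ f k := by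
  obtain ⟨hpos, hlim⟩ := hf
  obtain ⟨M, hM⟩ := hlim.bddAbove_range
  have hM' : ∀ k, f (k + 1) / f k ≤ M := fun k => hM ⟨k, rfl⟩
  have hM0 : 0 < max M 1 := lt_max_of_lt_right one_pos
  refine ⟨(max M 1)⁻¹, by positivity, inv_le_one_of_one_le₀ (le_max_right _ _), fun k => ?_⟩
  have h1 : f (k + 1) ≤ max M 1 * f k := by
    have := (div_le_iff₀ (hpos k)).mp (hM' k)
    exact this.trans (mul_le_mul_of_nonneg_right (le_max_left _ _) (hpos k).le)
  rw [inv_mul_le_iff₀ hM0]
  exact h1

lemma kap_pow {kap : ℝ} (h0 : 0 < kap) (h : ∀ k, kap * f (k + 1) ≤ f k) (j k : ℕ) :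
    kap ^ j * f (k + j) ≤ f k := by
  induction j with
  | zero => simp
  | succ j ih =>
    have h1 := h (k + j)
    calc kap ^ (j + 1) * f (k + (j + 1)) = kap ^ j * (kap * f (k + j + 1)) := by
          rw [pow_succ, mul_assoc]; rfl
      _ ≤ kap ^ j * f (k + j) := by gcongr
      _ ≤ f k := ih

lemma exists_Cf {c θ : ℝ} (hθ : 1 < θ) (hc : θ < c) (hf : EG f c) :
    ∃ Cf : ℝ, 1 ≤ Cf ∧ ∀ k n : ℕ, k ≤ n → f k * θ ^ n ≤ Cf * (f n * θ ^ k) := by
  obtain ⟨hpos, hlim⟩ := hf
  have hev : ∀ᶠ k in atTop, θ < f (k + 1) / f k := hlim.eventually (lt_mem_nhds hc)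
  obtain ⟨N0, hN0⟩ := eventually_atTop.mp hev
  have h0 : (0 : ℝ) < θ := by linarith
  have hstep : ∀ k, N0 ≤ k → θ * f k ≤ f (k + 1) := fun k hk =>
    ((lt_div_iff₀ (hpos k)).mp (hN0 k hk)).le
  have hmono : ∀ k, N0 ≤ k → ∀ i, f k * θ ^ i ≤ f (k + i) := by
    intro k hk i
    induction i with
    | zero => simp
    | succ i ih =>
      calc f k * θ ^ (i + 1) = θ * (f k * θ ^ i) := by ring
        _ ≤ θ * f (k + i) := by gcongr
        _ ≤ f (k + i + 1) := hstep _ (by omega)
  -- compare on the initial segment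
  set M : ℝ := ∑ k ∈ Finset.range (N0 + 1), f k / θ ^ k with hM
  set W : ℝ := ∑ k ∈ Finset.range (N0 + 1), θ ^ k / f k with hW
  have hMle : ∀ k, k ≤ N0 → f k / θ ^ k ≤ M := fun k hk =>
    Finset.single_le_sum (f := fun k => f k / θ ^ k) (fun i _ => by have := hpos i; positivity)
      (Finset.mem_range.mpr (by omega))
  have hWle : ∀ k, k ≤ N0 → θ ^ k / f k ≤ W := fun k hk =>
    Finset.single_le_sum (f := fun k => θ ^ k / f k) (fun i _ => by have := hpos i; positivity)
      (Finset.mem_range.mpr (by omega))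
  have hM0 : 0 < M := lt_of_lt_of_le (by have := hpos 0; positivity) (hMle 0 (by omega))
  have hW0 : 0 < W := lt_of_lt_of_le (by have := hpos 0; positivity) (hWle 0 (by omega))
  have hMW : 1 ≤ M * W := by
    have h1 := hMle 0 (by omega)
    have h2 := hWle 0 (by omega)
    have h3 := hpos 0
    simp only [pow_zero, div_one] at h1 h2
    calc (1 : ℝ) = f 0 * (1 / f 0) := by field_simp
      _ ≤ M * W := by gcongr
  refine ⟨M * W, hMW, fun k n hkn => ?_⟩
  have hk0 : 0 < θ ^ k := by positivity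
  have hn0 : 0 < θ ^ n := by positivity
  rcases le_or_gt N0 k with hk | hk
  · obtain ⟨i, rfl⟩ := Nat.exists_eq_add_of_le hkn
    have h1 := hmono k hk i
    calc f k * θ ^ (k + i) = (f k * θ ^ i) * θ ^ k := by ring
      _ ≤ f (k + i) * θ ^ k := by gcongr
      _ ≤ M * W * (f (k + i) * θ ^ k) := by
          have := hpos (k + i)
          exact le_mul_of_one_le_left (by positivity) hMW
  · have h1 : f k ≤ M * θ ^ k := (div_le_iff₀ hk0).mp (hMle k hk.le)
    have h2 : θ ^ n ≤ W * f n := by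
      rcases le_or_gt n N0 with hn | hn
      · exact (div_le_iff₀ (hpos n)).mp (hWle n hn)
      · obtain ⟨i, rfl⟩ := Nat.exists_eq_add_of_le hn.le
        have h3 := hmono N0 le_rfl i
        have h4 : θ ^ N0 ≤ W * f N0 := (div_le_iff₀ (hpos N0)).mp (hWle N0 le_rfl)
        calc θ ^ (N0 + i) = θ ^ N0 * θ ^ i := pow_add _ _ _
          _ ≤ W * f N0 * θ ^ i := by gcongr
          _ = W * (f N0 * θ ^ i) := by ring
          _ ≤ W * f (N0 + i) := by gcongr
    calc f k * θ ^ n ≤ (M * θ ^ k) * (W * f n) := by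
          have := (hpos k).le
          gcongr
      _ = M * W * (f n * θ ^ k) := by ring

lemma Z_le_H {θ Cf : ℝ} (hθ : 0 < θ) (h : ∀ k n : ℕ, k ≤ n → f k * θ ^ n ≤ Cf * (f n * θ ^ k))
    (s : Multiset ℕ) : Z f s ≤ Cf * f (D s) * H θ s := by
  have hD : 0 < θ ^ D s := by positivity
  rw [H_eq_sum]
  unfold Z
  rw [← msum_mul_left]
  refine msum_le fun d hd => ?_
  have h1 := h d (D s) (le_D hd)
  rw [← mul_div_assoc, le_div_iff₀ hD]
  linarith

/-! ### one step -/

lemma pow_diff {x t : ℝ} (hx : 1 ≤ x) (ht : 0 ≤ t) (ht1 : t ≤ 1) (p : ℕ) :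
    (x + t) ^ (p + 1) ≤ x ^ (p + 1) + (p + 1) * t * (2 * x) ^ p := by
  induction p with
  | zero => simp
  | succ p ih =>
    have h1 : x + t ≤ 2 * x := by linarith
    have h2 : x ^ (p + 1) ≤ (2 * x) ^ (p + 1) := pow_le_pow_left₀ (by linarith) (by linarith) _
    have h3 : (0 : ℝ) ≤ (p + 1) * t * (2 * x) ^ p := by positivity
    calc (x + t) ^ (p + 1 + 1) = (x + t) * (x + t) ^ (p + 1) := by ring
      _ ≤ (x + t) * (x ^ (p + 1) + (p + 1) * t * (2 * x) ^ p) := by gcongr
      _ = x ^ (p + 1 + 1) + t * x ^ (p + 1) + (x + t) * ((p + 1) * t * (2 * x) ^ p) := by ring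
      _ ≤ x ^ (p + 1 + 1) + t * (2 * x) ^ (p + 1) + (2 * x) * ((p + 1) * t * (2 * x) ^ p) := by
          gcongr
      _ = x ^ (p + 1 + 1) + ((p + 1 : ℕ) + 1) * t * (2 * x) ^ (p + 1) := by push_cast; ring

lemma cnt_step {d : ℕ} (hd : d + 1 ≤ D s) (i : ℕ) :
    cnt ((d + 1) ::ₘ s) i = cnt s i + (if d + 1 + i = D s then 1 else 0) := by
  have h : D ((d + 1) ::ₘ s) = D s := by rw [D_cons]; omega
  unfold cnt
  rw [h, Multiset.countP_cons]

lemma psi_step {m : ℕ → ℕ} (hm : ∀ j, 0 < m j) {d : ℕ} (hd : d + 1 ≤ D s) (i : ℕ) :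
    psi m i ((d + 1) ::ₘ s) ≤ psi m i s -
      (if i = D s - (d + 1) ∧ cnt s (D s - (d + 1)) < m (D s - (d + 1)) then
        1 / (m (D s - (d + 1)) : ℝ) else 0) := by
  have hmi : (0 : ℝ) < m i := by exact_mod_cast hm i
  by_cases h : i = D s - (d + 1)
  · have h1 : d + 1 + i = D s := by omega
    rw [← h]
    unfold psi
    rw [cnt_step hd, if_pos h1]
    by_cases h2 : cnt s i < m i
    · rw [if_pos ⟨rfl, h2⟩]
      have h3 : (cnt s i : ℝ) + 1 ≤ m i := by exact_mod_cast h2
      have h4 : (0 : ℝ) ≤ 1 - ((cnt s i + 1 : ℕ) : ℝ) / m i := by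
        rw [sub_nonneg, div_le_one hmi]; push_cast; exact h3
      have h5 : (0 : ℝ) ≤ 1 - (cnt s i : ℝ) / m i := by
        rw [sub_nonneg, div_le_one hmi]; linarith
      rw [max_eq_right h4, max_eq_right h5]
      push_cast
      rw [add_div]
      linarith
    · rw [if_neg (fun h => h2 h.2), sub_zero]
      refine max_le_max le_rfl ?_
      have : (cnt s i : ℝ) / m i ≤ ((cnt s i + 1 : ℕ) : ℝ) / m i := by
        push_cast
        gcongr
        linarith
      linarith
  · rw [if_neg (fun h' => h h'.1), sub_zero]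
    have h1 : ¬ (d + 1 + i = D s) := by omega
    unfold psi
    rw [cnt_step hd, if_neg h1, add_zero]

lemma sum_psi_step {m : ℕ → ℕ} (hm : ∀ j, 0 < m j) {d : ℕ} (hd : d + 1 ≤ D s) (J : ℕ) :
    ∑ i ∈ Finset.range J, psi m i ((d + 1) ::ₘ s) ≤ ∑ i ∈ Finset.range J, psi m i s -
      (if D s - (d + 1) < J ∧ cnt s (D s - (d + 1)) < m (D s - (d + 1)) then
        1 / (m (D s - (d + 1)) : ℝ) else 0) := by
  have h1 := Finset.sum_le_sum (fun i (_ : i ∈ Finset.range J) => psi_step hm hd i)
  rw [Finset.sum_sub_distrib] at h1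
  refine h1.trans (le_of_eq ?_)
  congr 1
  set j := D s - (d + 1)
  by_cases h2 : cnt s j < m j
  · simp only [h2, and_true]
    rw [Finset.sum_ite_eq' (Finset.range J) j (fun _ => 1 / (m j : ℝ))]
    simp only [Finset.mem_range]
  · simp [h2]

/-- a vertex is added below the top level -/
lemma delta_lt {θ η : ℝ} {p J : ℕ} {m : ℕ → ℕ} (hθ : 1 < θ) (hη : 0 ≤ η) (hJ : η * J ≤ 1)
    (hm : ∀ j, 0 < m j) (hs : s ≠ 0) {d : ℕ} (hd : d + 1 ≤ D s) :
    V θ η (p + 1) J m ((d + 1) ::ₘ s) - V θ η (p + 1) J m s ≤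
      ((p + 1) * 2 ^ (p + 1)) * (θ ^ (d + 1) / θ ^ D s) * H θ s ^ p -
      (if D s - (d + 1) < J ∧ cnt s (D s - (d + 1)) < m (D s - (d + 1)) then
        η / (m (D s - (d + 1)) : ℝ) else 0) * H θ s ^ (p + 1) := by
  have h0 : (0 : ℝ) < θ := by linarith
  have hH := one_le_H h0 hs
  have hH' := H_step_lt (θ := θ) hd
  set t : ℝ := θ ^ (d + 1) / θ ^ D s with ht
  have ht0 : 0 ≤ t := by positivity
  have ht1 : t ≤ 1 := by
    rw [ht, div_le_one (by positivity)]
    exact pow_le_pow_right₀ hθ.le (by omega)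
  have hp := pow_diff hH ht0 ht1 p
  have hps := sum_psi_step hm hd J
  have hs1 := sum_psi_nonneg m J ((d + 1) ::ₘ s)
  have hs2 := sum_psi_le m J ((d + 1) ::ₘ s)
  unfold V
  rw [hH']
  set S' := ∑ i ∈ Finset.range J, psi m i ((d + 1) ::ₘ s)
  set S := ∑ i ∈ Finset.range J, psi m i s
  set x := H θ s
  have hx0 : 0 ≤ x := by linarith
  have e1 : 0 ≤ η * S' := by positivity
  have e2 : η * S' ≤ 1 := (mul_le_mul_of_nonneg_left hs2 hη).trans hJ
  have e3 : x ^ (p + 1) ≤ (x + t) ^ (p + 1) := pow_le_pow_left₀ hx0 (by linarith) _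
  have e4 : ((x + t) ^ (p + 1) - x ^ (p + 1)) * (1 + η * S') ≤
      ((p + 1) * t * (2 * x) ^ p) * 2 := by
    refine mul_le_mul (by linarith) (by linarith) (by linarith) (by positivity)
  have e5 : x ^ (p + 1) * (η * (S' - S)) ≤ x ^ (p + 1) * (η * -(if D s - (d + 1) < J ∧
      cnt s (D s - (d + 1)) < m (D s - (d + 1)) then 1 / (m (D s - (d + 1)) : ℝ) else 0)) := by
    refine mul_le_mul_of_nonneg_left (mul_le_mul_of_nonneg_left (by linarith) hη) (by positivity)
  have e6 : (η * -(if D s - (d + 1) < J ∧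
      cnt s (D s - (d + 1)) < m (D s - (d + 1)) then 1 / (m (D s - (d + 1)) : ℝ) else 0)) =
      -(if D s - (d + 1) < J ∧ cnt s (D s - (d + 1)) < m (D s - (d + 1)) then
        η / (m (D s - (d + 1)) : ℝ) else 0) := by
    split_ifs
    · ring
    · ring
  rw [e6] at e5
  calc (x + t) ^ (p + 1) * (1 + η * S') - x ^ (p + 1) * (1 + η * S)
      = ((x + t) ^ (p + 1) - x ^ (p + 1)) * (1 + η * S') + x ^ (p + 1) * (η * (S' - S)) := by ring
    _ ≤ ((p + 1) * t * (2 * x) ^ p) * 2 + x ^ (p + 1) * -(if D s - (d + 1) < J ∧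
        cnt s (D s - (d + 1)) < m (D s - (d + 1)) then
        η / (m (D s - (d + 1)) : ℝ) else 0) := add_le_add e4 e5
    _ = _ := by rw [mul_pow]; ring

/-- a new deepest vertex -/
lemma delta_top {θ η a : ℝ} {p J : ℕ} {m : ℕ → ℕ} (hθ : 1 < θ) (hη : 0 ≤ η)
    (ha : a = 1 - 1 / θ) (hJ : η * J ≤ a / 4) (hK : 2 ≤ a * H θ s) :
    V θ η (p + 1) J m ((D s + 1) ::ₘ s) - V θ η (p + 1) J m s ≤ -(a / 4) * H θ s ^ (p + 1) := by
  have h0 : (0 : ℝ) < θ := by linarith
  have hθi : 0 < 1 / θ := by positivity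
  have hθi1 : 1 / θ < 1 := by rw [div_lt_one h0]; exact hθ
  have ha0 : 0 < a := by linarith
  have ha1 : a < 1 := by linarith
  have hHpos : 0 ≤ H θ s := H_nonneg h0 s
  have hV := pow_le_V (q := p + 1) (J := J) (m := m) h0 hη s
  have hs1 := sum_psi_nonneg m J ((D s + 1) ::ₘ s)
  have hs2 := sum_psi_le m J ((D s + 1) ::ₘ s)
  have hV' : V θ η (p + 1) J m ((D s + 1) ::ₘ s) ≤
      (1 - a / 2) * H θ s ^ (p + 1) * (1 + a / 4) := by
    unfold V
    rw [H_step_top h0]
    have e1 : H θ s / θ + 1 ≤ (1 - a / 2) * H θ s := by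
      have : H θ s / θ = (1 - a) * H θ s := by rw [ha]; ring
      rw [this]; linarith
    have e0 : 0 ≤ H θ s / θ + 1 := by positivity
    have e2 : (H θ s / θ + 1) ^ (p + 1) ≤ (1 - a / 2) * H θ s ^ (p + 1) := by
      calc (H θ s / θ + 1) ^ (p + 1) ≤ ((1 - a / 2) * H θ s) ^ (p + 1) :=
            pow_le_pow_left₀ e0 e1 _
        _ = (1 - a / 2) ^ (p + 1) * H θ s ^ (p + 1) := mul_pow _ _ _
        _ ≤ (1 - a / 2) ^ 1 * H θ s ^ (p + 1) := by
            have e9 : (1 - a / 2) ^ (p + 1) ≤ (1 - a / 2) ^ 1 :=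
              pow_le_pow_of_le_one (by linarith) (by linarith) (by omega)
            exact mul_le_mul_of_nonneg_right e9 (by positivity)
        _ = _ := by rw [pow_one]
    have e3 : η * ∑ j ∈ Finset.range J, psi m j ((D s + 1) ::ₘ s) ≤ a / 4 :=
      (mul_le_mul_of_nonneg_left hs2 hη).trans hJ
    have e4 : 0 ≤ η * ∑ j ∈ Finset.range J, psi m j ((D s + 1) ::ₘ s) := by positivity
    exact mul_le_mul e2 (by linarith) (by linarith) (mul_nonneg (by linarith) (by positivity))
  have hx : 0 ≤ H θ s ^ (p + 1) := by positivity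
  have e5 : (1 - a / 2) * H θ s ^ (p + 1) * (1 + a / 4) ≤ (1 - a / 4) * H θ s ^ (p + 1) := by
    have : (1 - a / 2) * (1 + a / 4) ≤ 1 - a / 4 := by nlinarith
    calc (1 - a / 2) * H θ s ^ (p + 1) * (1 + a / 4)
        = ((1 - a / 2) * (1 + a / 4)) * H θ s ^ (p + 1) := by ring
      _ ≤ _ := by gcongr
  linarith

/-- the thresholds `m_j` -/
noncomputable def mseq (m0 : ℕ) (G kap η : ℝ) : ℕ → ℕ
  | 0 => m0 + 1
  | j + 1 => ⌈2 * G * (mseq m0 G kap η j : ℝ) / (kap ^ (j + 1) * η)⌉₊ + 1

lemma mseq_pos (m0 : ℕ) (G kap η : ℝ) (j : ℕ) : 0 < mseq m0 G kap η j := by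
  cases j <;> simp [mseq]

lemma mseq_step {m0 : ℕ} {G kap η : ℝ} (hk : 0 < kap) (hη : 0 < η) (j : ℕ) :
    G ≤ (mseq m0 G kap η (j + 1) : ℝ) * kap ^ (j + 1) * (η / (2 * mseq m0 G kap η j)) := by
  have h1 : 2 * G * (mseq m0 G kap η j : ℝ) / (kap ^ (j + 1) * η) ≤ mseq m0 G kap η (j + 1) := by
    show _ ≤ ((⌈2 * G * (mseq m0 G kap η j : ℝ) / (kap ^ (j + 1) * η)⌉₊ + 1 : ℕ) : ℝ)
    push_cast
    have := Nat.le_ceil (2 * G * (mseq m0 G kap η j : ℝ) / (kap ^ (j + 1) * η))
    linarith
  have hm : (0 : ℝ) < mseq m0 G kap η j := by exact_mod_cast mseq_pos m0 G kap η j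
  have hkp : 0 < kap ^ (j + 1) := by positivity
  rw [div_le_iff₀ (by positivity)] at h1
  rw [mul_div_assoc', le_div_iff₀ (by positivity)]
  linarith

lemma P_sub_self (hf : ∀ k, 0 < f k) (hs : s ≠ 0) (φ : Multiset ℕ → ℝ) :
    P f φ s - φ s = (s.map (fun d => f d * (φ ((d + 1) ::ₘ s) - φ s))).sum / Z f s := by
  generalize φ s = a
  have h1 : P f φ s - a = P f φ s - P f (fun _ => a) s := by rw [P_const hf hs]
  rw [h1, ← P_sub]
  rfl

theorem k1 : S_K1 := by
  intro f c hc hf θ hθ hθc q hq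
  obtain ⟨p, rfl⟩ : ∃ p, q = p + 1 := ⟨q - 1, by omega⟩
  have hpos := hf.1
  obtain ⟨kap, hkap0, hkap1, hkap⟩ := exists_kap hf
  obtain ⟨Cf, hCf1, hCf⟩ := exists_Cf hθ hθc hf
  have h0 : (0 : ℝ) < θ := by linarith
  obtain ⟨a, ha⟩ : ∃ a : ℝ, a = 1 - 1 / θ := ⟨_, rfl⟩
  have hθi1 : 1 / θ < 1 := by rw [div_lt_one h0]; exact hθ
  have ha0 : 0 < a := by linarith
  have ha1 : a < 1 := by have : 0 < 1 / θ := by positivity
                         linarith
  obtain ⟨Q, hQ⟩ : ∃ Q : ℝ, Q = (p + 1) * 2 ^ (p + 1) := ⟨_, rfl⟩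
  have hQ0 : 0 < Q := by rw [hQ]; positivity
  obtain ⟨G, hG⟩ : ∃ G : ℝ, G = Cf * Q := ⟨_, rfl⟩
  have hG0 : 0 < G := by rw [hG]; positivity
  -- the number `J`
  obtain ⟨J, hJ1, hJ⟩ : ∃ J : ℕ, 1 ≤ J ∧ G * (1 / θ) ^ J ≤ a / 16 := by
    have hlim : Tendsto (fun J : ℕ => G * (1 / θ) ^ J) atTop (𝓝 (G * 0)) :=
      (tendsto_pow_atTop_nhds_zero_of_lt_one (by positivity) hθi1).const_mul G
    rw [mul_zero] at hlim
    have hev := hlim.eventually (gt_mem_nhds (by positivity : (0 : ℝ) < a / 16))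
    obtain ⟨J, hJ⟩ := (hev.and (eventually_ge_atTop 1)).exists
    exact ⟨J, hJ.2, hJ.1.le⟩
  have hJ0 : (0 : ℝ) < J := by exact_mod_cast hJ1
  obtain ⟨η, hη⟩ : ∃ η : ℝ, η = (a / 4) / J := ⟨_, rfl⟩
  have hη0 : 0 < η := by rw [hη]; positivity
  have hηJ : η * J = a / 4 := by rw [hη]; field_simp
  -- the thresholds
  obtain ⟨m, hm⟩ : ∃ m : ℕ → ℕ, m = mseq ⌈(G + a / 4) / (a / 4)⌉₊ G kap η := ⟨_, rfl⟩
  have hmpos : ∀ j, 0 < m j := fun j => by rw [hm]; exact mseq_pos _ _ _ _ j
  have hm0 : G + a / 4 ≤ a / 4 * (m 0 : ℝ) := by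
    have h1 : (m 0 : ℝ) = (⌈(G + a / 4) / (a / 4)⌉₊ : ℝ) + 1 := by
      rw [hm]; simp [mseq]
    have h2 := Nat.le_ceil ((G + a / 4) / (a / 4))
    rw [div_le_iff₀ (by positivity)] at h2
    rw [h1]
    nlinarith
  have hmstep : ∀ j, G ≤ (m (j + 1) : ℝ) * kap ^ (j + 1) * (η / (2 * m j)) := fun j => by
    rw [hm]; exact mseq_step hkap0 hη0 j
  -- the threshold `K`
  obtain ⟨K, hK⟩ : ∃ K : ℝ, K = 2 / a + ∑ j ∈ Finset.range J, 2 * Q * m j / η := ⟨_, rfl⟩
  have hKsum0 : 0 ≤ ∑ j ∈ Finset.range J, 2 * Q * m j / η :=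
    Finset.sum_nonneg fun j _ => by positivity
  have hKa : 2 / a ≤ K := by rw [hK]; linarith
  have hKj : ∀ j, j < J → 2 * Q * m j / η ≤ K := by
    intro j hj
    have h1 := Finset.single_le_sum (f := fun j => 2 * Q * m j / η) (s := Finset.range J)
      (fun j _ => by positivity) (Finset.mem_range.mpr hj)
    have h2 : 0 < 2 / a := by positivity
    rw [hK]
    linarith
  have hK0 : 0 < K := lt_of_lt_of_le (by positivity) hKa
  have hδ0 : 0 < a / 8 / Cf := by positivity
  refine ⟨η, J, m, a / 8 / Cf, 2 * (K + 1) ^ (p + 1) + a / 8 / Cf * K ^ p, hη0.le,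
    by rw [hηJ]; linarith, hmpos, hδ0, by positivity, fun s hs => ?_⟩
  have hH := one_le_H h0 hs
  have hZ := Z_pos hpos hs
  have hp1 : p + 1 - 1 = p := rfl
  rw [hp1]
  rcases le_or_gt K (H θ s) with hHK | hHK
  swap
  · -- small `H`
    have h1 : P f (V θ η (p + 1) J m) s ≤ 2 * (K + 1) ^ (p + 1) := by
      refine P_le_of_le hpos hs fun d hd => ?_
      refine (V_le h0 hη0.le (by rw [hηJ]; linarith) _).trans ?_
      have h2 := H_step_le hθ hd
      have h3 : H θ ((d + 1) ::ₘ s) ^ (p + 1) ≤ (K + 1) ^ (p + 1) :=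
        pow_le_pow_left₀ (H_nonneg h0 _) (by linarith) _
      linarith
    have h2 := V_nonneg (q := p + 1) (J := J) (m := m) h0 hη0.le s
    have h3 : a / 8 / Cf * H θ s ^ p ≤ a / 8 / Cf * K ^ p :=
      mul_le_mul_of_nonneg_left (pow_le_pow_left₀ (H_nonneg h0 s) hHK.le p) hδ0.le
    linarith
  · -- large `H`
    set x := H θ s with hx
    have hx0 : 0 < x := by linarith
    have hxp : x ^ (p + 1) = x * x ^ p := pow_succ' x p
    have hxp0 : 0 < x ^ p := by positivity
    have hZH : Z f s ≤ Cf * f (D s) * x := Z_le_H h0 hCf s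
    have hfD := hpos (D s)
    -- the bound of one summand below the top
    have hlow : ∀ d ∈ s, d + 1 ≤ D s →
        V θ η (p + 1) J m ((d + 1) ::ₘ s) - V θ η (p + 1) J m s ≤
        Q * (θ ^ (d + 1) / θ ^ D s) * x ^ p -
        (if D s - (d + 1) < J ∧ cnt s (D s - (d + 1)) < m (D s - (d + 1)) then
          η / (m (D s - (d + 1)) : ℝ) else 0) * x ^ (p + 1) := by
      intro d _ hd
      rw [hQ]
      exact delta_lt hθ hη0.le (by rw [hηJ]; linarith) hmpos hs hd
    have ht1 : ∀ d, d + 1 ≤ D s → θ ^ (d + 1) / θ ^ D s ≤ 1 := by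
      intro d hd
      rw [div_le_one (by positivity)]
      exact pow_le_pow_right₀ hθ.le hd
    have htop : V θ η (p + 1) J m ((D s + 1) ::ₘ s) - V θ η (p + 1) J m s ≤
        -(a / 4) * x ^ (p + 1) := by
      refine delta_top hθ hη0.le ha (le_of_eq hηJ) ?_
      have : 2 / a ≤ x := hKa.trans hHK
      rw [div_le_iff₀ ha0] at this
      linarith
    -- if `j < J` is light then the summand is quite negative
    have hlight : ∀ d ∈ s, d + 1 ≤ D s → D s - (d + 1) < J →
        cnt s (D s - (d + 1)) < m (D s - (d + 1)) →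
        V θ η (p + 1) J m ((d + 1) ::ₘ s) - V θ η (p + 1) J m s ≤
          -(η / (2 * m (D s - (d + 1)))) * x ^ (p + 1) := by
      intro d hd hd1 hj hc'
      have h1 := hlow d hd hd1
      rw [if_pos ⟨hj, hc'⟩] at h1
      have h2 := hKj _ hj
      have hmj : (0 : ℝ) < m (D s - (d + 1)) := by exact_mod_cast hmpos _
      have h3 : Q * (θ ^ (d + 1) / θ ^ D s) * x ^ p ≤ Q * 1 * x ^ p := by
        gcongr
        exact ht1 d hd1
      have h4 : Q * 1 * x ^ p ≤ η / (2 * m (D s - (d + 1))) * x ^ (p + 1) := by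
        have h5 : 2 * Q * m (D s - (d + 1)) / η ≤ x := h2.trans hHK
        rw [div_le_iff₀ hη0] at h5
        have h6 : Q ≤ η / (2 * m (D s - (d + 1))) * x := by
          rw [div_mul_eq_mul_div, le_div_iff₀ (by positivity)]
          linarith
        rw [hxp]
        calc Q * 1 * x ^ p = Q * x ^ p := by ring
          _ ≤ (η / (2 * m (D s - (d + 1))) * x) * x ^ p := by gcongr
          _ = _ := by ring
      have h7 : η / (m (D s - (d + 1)) : ℝ) * x ^ (p + 1) =
          2 * (η / (2 * m (D s - (d + 1))) * x ^ (p + 1)) := by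
        field_simp
      linarith
    -- the sum
    have hsum : ∃ (j : ℕ) (A B E : ℝ),
        (∀ d ∈ s, V θ η (p + 1) J m ((d + 1) ::ₘ s) - V θ η (p + 1) J m s ≤
          (if d + 0 = D s then A else 0) + (if d + j = D s then B else 0) + E) ∧
        (cnt s 0 : ℝ) * (f (D s) * A) + (cnt s j : ℝ) * (f (D s - j) * B) + Z f s * E ≤
          -(a / 8) * (f (D s) * x ^ (p + 1)) := by
      have hZE : ∀ e : ℝ, 0 ≤ e → Z f s * (e * x ^ p) ≤ Cf * e * (f (D s) * x ^ (p + 1)) := by
        intro e he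
        rw [hxp]
        calc Z f s * (e * x ^ p) ≤ (Cf * f (D s) * x) * (e * x ^ p) := by gcongr
          _ = _ := by ring
      have hcnt0 : (1 : ℝ) ≤ cnt s 0 := by exact_mod_cast one_le_cnt hs
      have hbase : (cnt s 0 : ℝ) * (f (D s) * (-(a / 4) * x ^ (p + 1))) ≤
          -(a / 4) * (f (D s) * x ^ (p + 1)) := by
        have h1 : 0 ≤ f (D s) * x ^ (p + 1) := by positivity
        nlinarith [mul_nonneg (mul_nonneg ha0.le h1) (by linarith : (0 : ℝ) ≤ cnt s 0 - 1)]
      by_cases hheavy : ∃ j, j < J ∧ m j ≤ cnt s j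
      · classical
        obtain ⟨hj1, hj2⟩ := Nat.find_spec hheavy
        have hjmin : ∀ i, i < Nat.find hheavy → ¬ (i < J ∧ m i ≤ cnt s i) := fun i hi =>
          Nat.find_min hheavy hi
        generalize hj' : Nat.find hheavy = j at *
        have hQx : ∀ d ∈ s, d + 1 ≤ D s →
            V θ η (p + 1) J m ((d + 1) ::ₘ s) - V θ η (p + 1) J m s ≤ Q * x ^ p := by
          intro d hd hd1
          have h1 := hlow d hd hd1
          have h3 : Q * (θ ^ (d + 1) / θ ^ D s) * x ^ p ≤ Q * 1 * x ^ p := by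
            gcongr
            exact ht1 d hd1
          have h4 : 0 ≤ (if D s - (d + 1) < J ∧ cnt s (D s - (d + 1)) < m (D s - (d + 1)) then
              η / (m (D s - (d + 1)) : ℝ) else 0) * x ^ (p + 1) := by
            refine mul_nonneg ?_ (by positivity)
            split_ifs <;> positivity
          linarith
        have hQ' := hZE Q hQ0.le
        rw [← hG] at hQ'
        rcases Nat.eq_zero_or_pos j with hj0 | hjpos
        · -- the top level is heavy
          refine ⟨0, -(a / 4) * x ^ (p + 1), 0, Q * x ^ p, fun d hd => ?_, ?_⟩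
          · rcases lt_or_eq_of_le (le_D hd) with h | h
            · have h1 := hQx d hd (by omega)
              rw [if_neg (by omega)]
              simpa using h1
            · have hd' : d = D s := h
              rw [if_pos (by omega), hd']
              have : 0 ≤ Q * x ^ p := by positivity
              simp only [add_zero, ite_self]
              linarith
          · have h1 : (m 0 : ℝ) ≤ cnt s 0 := by rw [hj0] at hj2; exact_mod_cast hj2
            have h2 : 0 ≤ f (D s) * x ^ (p + 1) := by positivity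
            have h3 : (cnt s 0 : ℝ) * (f (D s) * (-(a / 4) * x ^ (p + 1))) ≤
                -(G + a / 4) * (f (D s) * x ^ (p + 1)) := by
              have h4 : G + a / 4 ≤ a / 4 * cnt s 0 := hm0.trans (by gcongr)
              calc (cnt s 0 : ℝ) * (f (D s) * (-(a / 4) * x ^ (p + 1)))
                  = -((a / 4 * cnt s 0) * (f (D s) * x ^ (p + 1))) := by ring
                _ ≤ -((G + a / 4) * (f (D s) * x ^ (p + 1))) := by
                    exact neg_le_neg (mul_le_mul_of_nonneg_right h4 h2)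
                _ = _ := by ring
            have h5 : 0 ≤ a * (f (D s) * x ^ (p + 1)) := by positivity
            simp only [mul_zero, add_zero]
            linarith
        · obtain ⟨i, hi⟩ : ∃ i, j = i + 1 := ⟨j - 1, by omega⟩
          have hlighti : cnt s i < m i := by
            have := hjmin i (by omega)
            by_contra hcon
            exact this ⟨by omega, by omega⟩
          have hmi : (0 : ℝ) < m i := by exact_mod_cast hmpos i
          refine ⟨j, -(a / 4) * x ^ (p + 1), -(η / (2 * m i)) * x ^ (p + 1), Q * x ^ p,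
            fun d hd => ?_, ?_⟩
          · have hQp : 0 ≤ Q * x ^ p := by positivity
            rcases lt_or_eq_of_le (le_D hd) with h | h
            · rw [if_neg (by omega)]
              by_cases hdj : d + j = D s
              · rw [if_pos hdj]
                have hii : D s - (d + 1) = i := by omega
                have h1 := hlight d hd (by omega) (by omega) (by rw [hii]; exact hlighti)
                rw [hii] at h1
                linarith
              · rw [if_neg hdj]
                have h1 := hQx d hd (by omega)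
                linarith
            · rw [if_pos (by omega), if_neg (by omega), h]
              linarith
          · have h1 : (m j : ℝ) ≤ cnt s j := by exact_mod_cast hj2
            have h2 : 0 ≤ f (D s) * x ^ (p + 1) := by positivity
            by_cases hjD : j ≤ D s
            · have h3 : kap ^ j * f (D s) ≤ f (D s - j) := by
                have := kap_pow hkap0 hkap j (D s - j)
                rwa [Nat.sub_add_cancel hjD] at this
              have h4 := hmstep i
              rw [← hi] at h4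
              have h5 : G * (f (D s) * x ^ (p + 1)) ≤
                  (cnt s j : ℝ) * (f (D s - j) * ((η / (2 * m i)) * x ^ (p + 1))) := by
                calc G * (f (D s) * x ^ (p + 1))
                    ≤ ((m j : ℝ) * kap ^ j * (η / (2 * m i))) * (f (D s) * x ^ (p + 1)) := by gcongr
                  _ = (m j : ℝ) * ((kap ^ j * f (D s)) * ((η / (2 * m i)) * x ^ (p + 1))) := by ring
                  _ ≤ (cnt s j : ℝ) * (f (D s - j) * ((η / (2 * m i)) * x ^ (p + 1))) := by gcongr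
              have h6 : (cnt s j : ℝ) * (f (D s - j) * (-(η / (2 * m i)) * x ^ (p + 1))) =
                  -((cnt s j : ℝ) * (f (D s - j) * ((η / (2 * m i)) * x ^ (p + 1)))) := by ring
              have h7 : 0 ≤ a * (f (D s) * x ^ (p + 1)) := by positivity
              rw [h6]
              linarith
            · exfalso
              have h3 : cnt s j = 0 := by
                unfold cnt
                rw [Multiset.countP_eq_zero]
                intro d _ h4
                omega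
              have := hmpos j
              omega
      · push Not at hheavy
        refine ⟨0, -(a / 4) * x ^ (p + 1), 0, Q * (1 / θ) ^ J * x ^ p, fun d hd => ?_, ?_⟩
        · have hE : 0 ≤ Q * (1 / θ) ^ J * x ^ p := by positivity
          rcases lt_or_eq_of_le (le_D hd) with h | h
          · rw [if_neg (by omega), ite_self, zero_add, zero_add]
            by_cases hjJ : D s - (d + 1) < J
            · have h1 := hlight d hd (by omega) hjJ (hheavy _ hjJ)
              have hmj : (0 : ℝ) < m (D s - (d + 1)) := by exact_mod_cast hmpos _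
              have h2 : 0 ≤ (η / (2 * m (D s - (d + 1)))) * x ^ (p + 1) := by positivity
              linarith
            · have h1 := hlow d hd (by omega)
              rw [if_neg (fun h => hjJ h.1), zero_mul, sub_zero] at h1
              refine h1.trans ?_
              have h2 : θ ^ (d + 1) / θ ^ D s ≤ (1 / θ) ^ J := by
                rw [one_div, inv_pow, div_le_iff₀ (by positivity), inv_mul_eq_div,
                  le_div_iff₀ (by positivity), ← pow_add]
                exact pow_le_pow_right₀ hθ.le (by omega)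
              gcongr
          · rw [if_pos (by omega), ite_self, add_zero, h]
            linarith
        · have h1 := hZE (Q * (1 / θ) ^ J) (by positivity)
          have h2 : 0 ≤ f (D s) * x ^ (p + 1) := by positivity
          have h3 : Cf * (Q * (1 / θ) ^ J) * (f (D s) * x ^ (p + 1)) ≤
              a / 16 * (f (D s) * x ^ (p + 1)) := by
            refine mul_le_mul_of_nonneg_right ?_ h2
            calc Cf * (Q * (1 / θ) ^ J) = G * (1 / θ) ^ J := by rw [hG]; ring
              _ ≤ a / 16 := hJ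
          have h4 : 0 ≤ a * (f (D s) * x ^ (p + 1)) := by positivity
          simp only [mul_zero, add_zero]
          linarith
    obtain ⟨j, A, B, E, hterm, htot⟩ := hsum
    have hdiff := P_sub_self hpos hs (V θ η (p + 1) J m)
    have h1 : (s.map (fun d => f d * (V θ η (p + 1) J m ((d + 1) ::ₘ s) -
        V θ η (p + 1) J m s))).sum ≤ -(a / 8) * (f (D s) * x ^ (p + 1)) := by
      refine (msum_le fun d hd => mul_le_mul_of_nonneg_left (hterm d hd) (hpos d).le).trans ?_
      rw [sum_split]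
      exact htot
    have h2 : P f (V θ η (p + 1) J m) s - V θ η (p + 1) J m s ≤ -(a / 8 / Cf * x ^ p) := by
      rw [hdiff, div_le_iff₀ hZ]
      have h3 : a / 8 / Cf * x ^ p * Z f s ≤ a / 8 * (f (D s) * x ^ (p + 1)) := by
        calc a / 8 / Cf * x ^ p * Z f s ≤ a / 8 / Cf * x ^ p * (Cf * f (D s) * x) := by gcongr
          _ = a / 8 * (f (D s) * x ^ (p + 1)) := by rw [hxp]; field_simp
      linarith
    have h4 : 0 ≤ 2 * (K + 1) ^ (p + 1) + a / 8 / Cf * K ^ p := by positivity
    linarith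

end Pool.Agent.Q176.DWT
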